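import Mathlib
import Pool.Agent.Helper35.HSF.StG

/-!
Project HSF (MP_925021_gt), module FFT: finite time, assembly
-/

set_option autoImplicit false

namespace Helper95.HSF

open Helper35.HSF Helper35.MS Helper35.PI Helper35.PI2 Helper32.CL
open scoped ContDiff Manifold Topology ENNReal BigOperators
open MeasureTheory Set Filter

theorem hFFT (hFCV : StFCV) (hNEG : StNEG) (hFLM : StFLM) (hSHP : StSHP) (hRPT : StRPT)
    (hSRJ : StSRJ) : StFFT := by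
  intro n hn2 M _ _ _ _ _ _ T F ν hfl hT k t₁ hk0 hk1 ht₁ hpin hunb
  obtain ⟨ν', ts, ε, hν', hts, hε0, hε1, hz⟩ :=
    hFCV n (by omega) M T F ν hfl hT k t₁ hk0 hk1 ht₁ hpin hunb
  have hfl' : HFl n (Ioo 0 T) F ν' := by
    rcases hν' with h | h
    · rw [h]
      exact hfl
    · exact (hNEG n M F ν ν' h).1 _ hfl
  have habs : ∀ (q : M) (t : ℝ) (c : Fin n → ℝ), |hn F ν' q t c| = |hn F ν q t c| := by
    intro q t c
    rcases hν' with h | h
    · rw [h]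
    · rw [((hNEG n M F ν ν' h).2.2 q t).2.2 c, abs_neg]
  have hdat : FDat n T F ν' ts ε :=
    ⟨hfl', hT, ⟨ht₁.1.trans_le hts.1, hts.2⟩, hε0, hε1,
      fun t ht => (hpin t ⟨hts.1.trans ht.1, ht.2⟩).1,
      fun t ht => (hz t ht).1, fun t ht => (hz t ht).2, hunb⟩
  obtain ⟨ts', x, C, α, hts', hx⟩ := hFLM n hn2 M T F ν' ts ε hdat
  refine ⟨x, hx.x2, fun η hη => ?_⟩
  obtain ⟨η', hη'⟩ : ∃ η' : ℝ, η' = min η (1 / 2) := ⟨_, rfl⟩
  have hη0 : 0 < η' := by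
    rw [hη']
    exact lt_min hη (by norm_num)
  have hη1 : η' ≤ η := by
    rw [hη']
    exact min_le_left _ _
  have hη2 : η' ≤ 1 / 2 := by
    rw [hη']
    exact min_le_right _ _
  obtain ⟨t2, ht2, hA⟩ := hSHP n hn2 M T F ν' ts' ε x C α hx η' hη0
  obtain ⟨t3, ht3, hB⟩ := hRPT n hn2 M T F ν' ts' ε x C α hx η hη
  obtain ⟨t4, ht4, hD⟩ := hSRJ n hn2 M T F ν' ts' ε x C α hx η hη
  refine ⟨max t2 (max t3 t4), ⟨?_, max_lt ht2.2 (max_lt ht3.2 ht4.2)⟩, ?_⟩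
  · exact (hts.1.trans (hts'.1.trans ht2.1)).trans (le_max_left _ _)
  intro t ht σ hσ
  have h2 : t ∈ Ico t2 T := ⟨(le_max_left _ _).trans ht.1, ht.2⟩
  have h3 : t ∈ Ico t3 T := ⟨((le_max_left _ _).trans (le_max_right _ _)).trans ht.1, ht.2⟩
  have h4 : t ∈ Ico t4 T := ⟨((le_max_right _ _).trans (le_max_right _ _)).trans ht.1, ht.2⟩
  have hσ0 : 0 ≤ σ := by
    rw [hσ]
    exact Real.sqrt_nonneg _
  refine ⟨fun q => ⟨?_, ?_, ?_⟩, ?_⟩
  · rw [hσ]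
    exact (hB t h3 q).2
  · intro c hc
    have h5 := hA t h2 q c hc
    rw [← hσ] at h5
    have h6 := abs_le.1 h5
    have h7 : 0 ≤ σ * hn F ν' q t c := by linarith [h6.1]
    have h8 : σ * |hn F ν q t c| = σ * hn F ν' q t c := by
      rw [← habs q t c]
      calc σ * |hn F ν' q t c| = |σ| * |hn F ν' q t c| := by rw [abs_of_nonneg hσ0]
        _ = |σ * hn F ν' q t c| := by rw [abs_mul]
        _ = σ * hn F ν' q t c := abs_of_nonneg h7
    rw [h8]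
    exact h5.trans hη1
  · obtain ⟨p, hp1, hp2, hp3⟩ := (hD t h4).1 q
    refine ⟨p, hp1, hp2, ?_⟩
    rw [hσ]
    exact hp3
  · intro p hp1 hp2
    obtain ⟨z, hz'⟩ := (hD t h4).2 p hp1 hp2
    refine ⟨z, ?_⟩
    rw [hσ]
    exact hz'

end Helper95.HSF
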