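import Mathlib
import Pool.Agent.Helper35.HSF.StH

/-!
Project HSF (MP_925021_gt), module KLO: inverse function theorem on manifolds
-/

set_option autoImplicit false

namespace Helper95.HSF

open Helper35.HSF Helper35.MS Helper35.PI Helper35.PI2 Helper32.CL
open scoped ContDiff Manifold Topology ENNReal BigOperators
open MeasureTheory Set Filter

section

variable {n : ℕ}

/-- The preferred chart as a diffeomorphism between open sets. -/
private noncomputable def chd (M : Type) [TopologicalSpace M] [ChartedSpace (EE n) M]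
    [IsManifold (𝓡 n) ∞ M] (x : M) : PartialDiffeomorph (𝓡 n) (𝓡 n) M (EE n) ∞ where
  toPartialEquiv := (chartAt (EE n) x).toPartialEquiv
  open_source := (chartAt (EE n) x).open_source
  open_target := (chartAt (EE n) x).open_target
  contMDiffOn_toFun := contMDiffOn_chart
  contMDiffOn_invFun := contMDiffOn_chart_symm

/-- The inverse function theorem in the form needed here. -/
private theorem ift (h : EE n → EE n) (U : Set (EE n)) (hU : IsOpen U) (hh : ContDiffOn ℝ ∞ h U)
    (y : EE n) (hy : y ∈ U) (hinj : Function.Injective (fderiv ℝ h y)) :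
    IsLocalDiffeomorphAt (𝓡 n) (𝓡 n) ∞ h y := by
  obtain ⟨V, hV⟩ : ∃ V : Set (EE n), V = U ∩ (fderiv ℝ h) ⁻¹'
    (range ((↑) : (EE n ≃L[ℝ] EE n) → EE n →L[ℝ] EE n)) := ⟨_, rfl⟩
  have hVo : IsOpen V := by
    rw [hV]
    refine (hh.continuousOn_fderiv_of_isOpen hU ?_).isOpen_inter_preimage hU
      ContinuousLinearEquiv.isOpen
    exact_mod_cast le_top
  have hyV : y ∈ V := by
    rw [hV]
    refine ⟨hy, ?_⟩
    let e1 : EE n ≃ₗ[ℝ] EE n := LinearEquiv.ofInjectiveEndo (fderiv ℝ h y : EE n →ₗ[ℝ] EE n) hinj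
    refine ⟨e1.toContinuousLinearEquiv, ?_⟩
    ext v : 1
    rfl
  have hcd : ∀ w ∈ V, ContDiffAt ℝ ∞ h w := by
    intro w hw
    rw [hV] at hw
    exact hh.contDiffAt (hU.mem_nhds hw.1)
  have heq : ∀ w ∈ V, ∃ f' : EE n ≃L[ℝ] EE n, HasFDerivAt h (f' : EE n →L[ℝ] EE n) w := by
    intro w hw
    have h1 := hcd w hw
    rw [hV] at hw
    obtain ⟨f', hf'⟩ := hw.2
    refine ⟨f', ?_⟩
    rw [hf']
    exact (h1.differentiableAt (by simp)).hasFDerivAt
  obtain ⟨f', hf'⟩ := heq y hyV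
  have hne : (∞ : WithTop ℕ∞) ≠ 0 := by simp
  obtain ⟨e, he⟩ : ∃ e : OpenPartialHomeomorph (EE n) (EE n),
      e = ((hcd y hyV).toOpenPartialHomeomorph h hf' hne).restrOpen V hVo := ⟨_, rfl⟩
  have hes : e.source ⊆ V := by
    rw [he]
    intro w hw
    exact hw.2
  have heh : (e : EE n → EE n) = h := by
    rw [he]
    rfl
  have hye : y ∈ e.source := by
    rw [he]
    exact ⟨(hcd y hyV).mem_toOpenPartialHomeomorph_source hf' hne, hyV⟩
  refine ⟨⟨e.toPartialEquiv, e.open_source, e.open_target, ?_, ?_⟩, hye, ?_⟩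
  · rw [contMDiffOn_iff_contDiffOn]
    intro w hw
    have h1 := (hcd w (hes hw)).contDiffWithinAt (s := e.source)
    rw [← heh] at h1
    exact h1
  · rw [contMDiffOn_iff_contDiffOn]
    intro w hw
    obtain ⟨f'', hf''⟩ := heq (e.symm w) (hes (e.map_target hw))
    rw [← heh] at hf''
    have h1 := hcd (e.symm w) (hes (e.map_target hw))
    rw [← heh] at h1
    exact (e.contDiffAt_symm hw hf'' h1).contDiffWithinAt
  · intro w _
    show h w = e w
    rw [heh]

end

theorem hKLO : StKLO := by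
  intro n M N _ _ _ _ _ _ f hf hinj x
  obtain ⟨h, hh⟩ : ∃ h : EE n → EE n,
      h = (chartAt (EE n) (f x)) ∘ f ∘ (chartAt (EE n) x).symm := ⟨_, rfl⟩
  obtain ⟨U, hU⟩ : ∃ U : Set (EE n), U = (chartAt (EE n) x).target ∩
    (chartAt (EE n) x).symm ⁻¹' (f ⁻¹' (chartAt (EE n) (f x)).source) := ⟨_, rfl⟩
  have hUo : IsOpen U := by
    rw [hU]
    exact (chartAt (EE n) x).continuousOn_symm.isOpen_inter_preimage (chartAt (EE n) x).open_target
      ((chartAt (EE n) (f x)).open_source.preimage hf.continuous)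
  have hxU : chartAt (EE n) x x ∈ U := by
    rw [hU]
    refine ⟨mem_chart_target _ x, ?_⟩
    show f ((chartAt (EE n) x).symm (chartAt (EE n) x x)) ∈ (chartAt (EE n) (f x)).source
    rw [(chartAt (EE n) x).left_inv (mem_chart_source _ x)]
    exact mem_chart_source _ _
  have hsm : ContDiffOn ℝ ∞ h U := by
    rw [← contMDiffOn_iff_contDiffOn, hh]
    have h1 : ContMDiffOn (𝓡 n) (𝓡 n) ∞ (chartAt (EE n) x).symm U := by
      rw [hU]
      exact (contMDiffOn_chart_symm (I := 𝓡 n) (n := ∞)).mono inter_subset_left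
    have h2 : ContMDiffOn (𝓡 n) (𝓡 n) ∞ (chartAt (EE n) (f x)) (chartAt (EE n) (f x)).source :=
      contMDiffOn_chart (I := 𝓡 n) (n := ∞)
    refine h2.comp (hf.comp_contMDiffOn h1) ?_
    intro w hw
    rw [hU] at hw
    exact hw.2
  have hder : Function.Injective (fderiv ℝ h (chartAt (EE n) x x)) := by
    have h1 := hinj x
    have h2 : MDifferentiableAt (𝓡 n) (𝓡 n) f x := (hf x).mdifferentiableAt (by simp)
    rw [h2.mfderiv] at h1
    have h3 : fderivWithin ℝ (writtenInExtChartAt (𝓡 n) (𝓡 n) x f) (range (𝓡 n))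
        (extChartAt (𝓡 n) x x) = fderiv ℝ h (chartAt (EE n) x x) := by
      rw [hh]
      simp only [mfld_simps, fderivWithin_univ]
    rw [h3] at h1
    exact h1
  have a1 : IsLocalDiffeomorphAt (𝓡 n) (𝓡 n) ∞ (chartAt (EE n) x) x :=
    ⟨chd M x, mem_chart_source _ x, fun _ _ => rfl⟩
  have a2 : IsLocalDiffeomorphAt (𝓡 n) (𝓡 n) ∞ h (chartAt (EE n) x x) :=
    ift h U hUo hsm _ hxU hder
  have hhx : h (chartAt (EE n) x x) = chartAt (EE n) (f x) (f x) := by
    rw [hh]
    show chartAt (EE n) (f x) (f ((chartAt (EE n) x).symm (chartAt (EE n) x x))) = _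
    rw [(chartAt (EE n) x).left_inv (mem_chart_source _ x)]
  have a3 : IsLocalDiffeomorphAt (𝓡 n) (𝓡 n) ∞ (chartAt (EE n) (f x)).symm
      (h (chartAt (EE n) x x)) := by
    rw [hhx]
    exact ⟨(chd N (f x)).symm, mem_chart_target _ _, fun _ _ => rfl⟩
  obtain ⟨Φ, hΦ1, hΦ2⟩ := (a1.comp (𝓡 n) (EE n) a2).comp (𝓡 n) N a3
  obtain ⟨W, hW⟩ : ∃ W : Set M, W = (chartAt (EE n) x).source ∩
    f ⁻¹' (chartAt (EE n) (f x)).source := ⟨_, rfl⟩
  have hWo : IsOpen W := by
    rw [hW]
    exact (chartAt (EE n) x).open_source.inter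
      ((chartAt (EE n) (f x)).open_source.preimage hf.continuous)
  have hxW : x ∈ W := by
    rw [hW]
    exact ⟨mem_chart_source _ x, mem_chart_source _ _⟩
  have hfW : ∀ w ∈ W, ((chartAt (EE n) (f x)).symm ∘ h ∘ chartAt (EE n) x) w = f w := by
    intro w hw
    rw [hW] at hw
    rw [hh]
    show (chartAt (EE n) (f x)).symm (chartAt (EE n) (f x)
      (f ((chartAt (EE n) x).symm (chartAt (EE n) x w)))) = f w
    rw [(chartAt (EE n) x).left_inv hw.1]
    exact (chartAt (EE n) (f x)).left_inv hw.2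
  obtain ⟨e, he⟩ : ∃ e : OpenPartialHomeomorph M N,
      e = Φ.toOpenPartialHomeomorph.restrOpen W hWo := ⟨_, rfl⟩
  have hes : e.source ⊆ Φ.source ∩ W := by
    rw [he]
    intro w hw
    exact hw
  have het : e.target ⊆ Φ.target := by
    rw [he]
    intro w hw
    exact hw.1
  have heΦ : ∀ w, e w = Φ w := by
    intro w
    rw [he]
    rfl
  have heΦs : ∀ w, e.symm w = Φ.symm w := by
    intro w
    rw [he]
    rfl
  refine ⟨⟨e.toPartialEquiv, e.open_source, e.open_target, ?_, ?_⟩, ?_, ?_⟩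
  · refine (Φ.contMDiffOn_toFun.mono (fun w hw => (hes hw).1)).congr ?_
    intro w _
    exact heΦ w
  · refine (Φ.contMDiffOn_invFun.mono het).congr ?_
    intro w _
    exact heΦs w
  · show x ∈ e.source
    rw [he]
    exact ⟨hΦ1, hxW⟩
  · intro w hw
    have h1 := hes hw
    show f w = e w
    rw [heΦ w, ← hΦ2 h1.1]
    exact (hfW w h1.2).symm

end Helper95.HSF
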